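import Mathlib

set_option autoImplicit false

/-!
# A simple closed curve whose semispan is larger than its span

The curve is a closed polygon in `Fin 6 → ℝ` with the supremum metric.
-/

namespace Pool.Agent.TH544.SpanCurve

open Set

/-- The tent of height one at `j`. -/
noncomputable def tent (j t : ℝ) : ℝ := max 0 (1 - |t - j|)

lemma tent_continuous (j : ℝ) : Continuous (tent j) := by
  unfold tent; fun_prop

lemma tent_lip (j s t : ℝ) : tent j s - tent j t ≤ |s - t| := by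
  unfold tent
  have h1 : |t - j| ≤ |s - t| + |s - j| := by
    have : t - j = -(s - t) + (s - j) := by ring
    rw [this]
    exact (abs_add_le _ _).trans (by rw [abs_neg])
  have h0 : 0 ≤ |s - t| := abs_nonneg _
  rcases le_total 0 (1 - |s - j|) with h | h
  · rw [max_eq_right h]
    have := le_max_right 0 (1 - |t - j|)
    linarith
  · rw [max_eq_left h]
    have := le_max_left 0 (1 - |t - j|)
    linarith

lemma tent_lip' (j s t : ℝ) : |tent j s - tent j t| ≤ |s - t| := by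
  rw [abs_le]
  refine ⟨?_, tent_lip j s t⟩
  have := tent_lip j t s
  rw [abs_sub_comm] at this
  linarith

lemma tent_eq_zero_of_le {j t : ℝ} (h : t ≤ j - 1) : tent j t = 0 := by
  unfold tent
  rw [abs_of_nonpos (by linarith)]
  exact max_eq_left (by linarith)

lemma tent_eq_zero_of_ge {j t : ℝ} (h : j + 1 ≤ t) : tent j t = 0 := by
  unfold tent
  rw [abs_of_nonneg (by linarith)]
  exact max_eq_left (by linarith)

lemma tent_eq_left {j t : ℝ} (h1 : j - 1 ≤ t) (h2 : t ≤ j) : tent j t = t - (j - 1) := by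
  unfold tent
  rw [abs_of_nonpos (by linarith)]
  rw [max_eq_right (by linarith)]
  ring

lemma tent_eq_right {j t : ℝ} (h1 : j ≤ t) (h2 : t ≤ j + 1) : tent j t = 1 - (t - j) := by
  unfold tent
  rw [abs_of_nonneg (by linarith)]
  rw [max_eq_right (by linarith)]

/-- Interpolation of the values `a 0, …, a 7` at the nodes `0, …, 7`. -/
noncomputable def pl (a0 a1 a2 a3 a4 a5 a6 a7 t : ℝ) : ℝ :=
  a0 * tent 0 t + a1 * tent 1 t + a2 * tent 2 t + a3 * tent 3 t + a4 * tent 4 t + a5 * tent 5 t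
    + a6 * tent 6 t + a7 * tent 7 t

lemma pl_continuous (a0 a1 a2 a3 a4 a5 a6 a7 : ℝ) : Continuous (pl a0 a1 a2 a3 a4 a5 a6 a7) := by
  unfold pl
  have := tent_continuous
  fun_prop

lemma seg0 {t : ℝ} (h1 : 0 ≤ t) (h2 : t ≤ 1) (a0 a1 a2 a3 a4 a5 a6 a7 : ℝ) :
    pl a0 a1 a2 a3 a4 a5 a6 a7 t = a0 * (1 - t) + a1 * (t - 0) := by
  unfold pl
  rw [tent_eq_right (j := 0) (t := t) (by linarith) (by linarith),
    tent_eq_left (j := 1) (t := t) (by linarith) (by linarith),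
    tent_eq_zero_of_le (j := 2) (t := t) (by linarith),
    tent_eq_zero_of_le (j := 3) (t := t) (by linarith),
    tent_eq_zero_of_le (j := 4) (t := t) (by linarith),
    tent_eq_zero_of_le (j := 5) (t := t) (by linarith),
    tent_eq_zero_of_le (j := 6) (t := t) (by linarith),
    tent_eq_zero_of_le (j := 7) (t := t) (by linarith)]
  ring

lemma seg1 {t : ℝ} (h1 : 1 ≤ t) (h2 : t ≤ 2) (a0 a1 a2 a3 a4 a5 a6 a7 : ℝ) :
    pl a0 a1 a2 a3 a4 a5 a6 a7 t = a1 * (2 - t) + a2 * (t - 1) := by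
  unfold pl
  rw [tent_eq_zero_of_ge (j := 0) (t := t) (by linarith),
    tent_eq_right (j := 1) (t := t) (by linarith) (by linarith),
    tent_eq_left (j := 2) (t := t) (by linarith) (by linarith),
    tent_eq_zero_of_le (j := 3) (t := t) (by linarith),
    tent_eq_zero_of_le (j := 4) (t := t) (by linarith),
    tent_eq_zero_of_le (j := 5) (t := t) (by linarith),
    tent_eq_zero_of_le (j := 6) (t := t) (by linarith),
    tent_eq_zero_of_le (j := 7) (t := t) (by linarith)]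
  ring

lemma seg2 {t : ℝ} (h1 : 2 ≤ t) (h2 : t ≤ 3) (a0 a1 a2 a3 a4 a5 a6 a7 : ℝ) :
    pl a0 a1 a2 a3 a4 a5 a6 a7 t = a2 * (3 - t) + a3 * (t - 2) := by
  unfold pl
  rw [tent_eq_zero_of_ge (j := 0) (t := t) (by linarith),
    tent_eq_zero_of_ge (j := 1) (t := t) (by linarith),
    tent_eq_right (j := 2) (t := t) (by linarith) (by linarith),
    tent_eq_left (j := 3) (t := t) (by linarith) (by linarith),
    tent_eq_zero_of_le (j := 4) (t := t) (by linarith),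
    tent_eq_zero_of_le (j := 5) (t := t) (by linarith),
    tent_eq_zero_of_le (j := 6) (t := t) (by linarith),
    tent_eq_zero_of_le (j := 7) (t := t) (by linarith)]
  ring

lemma seg3 {t : ℝ} (h1 : 3 ≤ t) (h2 : t ≤ 4) (a0 a1 a2 a3 a4 a5 a6 a7 : ℝ) :
    pl a0 a1 a2 a3 a4 a5 a6 a7 t = a3 * (4 - t) + a4 * (t - 3) := by
  unfold pl
  rw [tent_eq_zero_of_ge (j := 0) (t := t) (by linarith),
    tent_eq_zero_of_ge (j := 1) (t := t) (by linarith),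
    tent_eq_zero_of_ge (j := 2) (t := t) (by linarith),
    tent_eq_right (j := 3) (t := t) (by linarith) (by linarith),
    tent_eq_left (j := 4) (t := t) (by linarith) (by linarith),
    tent_eq_zero_of_le (j := 5) (t := t) (by linarith),
    tent_eq_zero_of_le (j := 6) (t := t) (by linarith),
    tent_eq_zero_of_le (j := 7) (t := t) (by linarith)]
  ring

lemma seg4 {t : ℝ} (h1 : 4 ≤ t) (h2 : t ≤ 5) (a0 a1 a2 a3 a4 a5 a6 a7 : ℝ) :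
    pl a0 a1 a2 a3 a4 a5 a6 a7 t = a4 * (5 - t) + a5 * (t - 4) := by
  unfold pl
  rw [tent_eq_zero_of_ge (j := 0) (t := t) (by linarith),
    tent_eq_zero_of_ge (j := 1) (t := t) (by linarith),
    tent_eq_zero_of_ge (j := 2) (t := t) (by linarith),
    tent_eq_zero_of_ge (j := 3) (t := t) (by linarith),
    tent_eq_right (j := 4) (t := t) (by linarith) (by linarith),
    tent_eq_left (j := 5) (t := t) (by linarith) (by linarith),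
    tent_eq_zero_of_le (j := 6) (t := t) (by linarith),
    tent_eq_zero_of_le (j := 7) (t := t) (by linarith)]
  ring

lemma seg5 {t : ℝ} (h1 : 5 ≤ t) (h2 : t ≤ 6) (a0 a1 a2 a3 a4 a5 a6 a7 : ℝ) :
    pl a0 a1 a2 a3 a4 a5 a6 a7 t = a5 * (6 - t) + a6 * (t - 5) := by
  unfold pl
  rw [tent_eq_zero_of_ge (j := 0) (t := t) (by linarith),
    tent_eq_zero_of_ge (j := 1) (t := t) (by linarith),
    tent_eq_zero_of_ge (j := 2) (t := t) (by linarith),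
    tent_eq_zero_of_ge (j := 3) (t := t) (by linarith),
    tent_eq_zero_of_ge (j := 4) (t := t) (by linarith),
    tent_eq_right (j := 5) (t := t) (by linarith) (by linarith),
    tent_eq_left (j := 6) (t := t) (by linarith) (by linarith),
    tent_eq_zero_of_le (j := 7) (t := t) (by linarith)]
  ring

lemma seg6 {t : ℝ} (h1 : 6 ≤ t) (h2 : t ≤ 7) (a0 a1 a2 a3 a4 a5 a6 a7 : ℝ) :
    pl a0 a1 a2 a3 a4 a5 a6 a7 t = a6 * (7 - t) + a7 * (t - 6) := by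
  unfold pl
  rw [tent_eq_zero_of_ge (j := 0) (t := t) (by linarith),
    tent_eq_zero_of_ge (j := 1) (t := t) (by linarith),
    tent_eq_zero_of_ge (j := 2) (t := t) (by linarith),
    tent_eq_zero_of_ge (j := 3) (t := t) (by linarith),
    tent_eq_zero_of_ge (j := 4) (t := t) (by linarith),
    tent_eq_zero_of_ge (j := 5) (t := t) (by linarith),
    tent_eq_right (j := 6) (t := t) (by linarith) (by linarith),
    tent_eq_left (j := 7) (t := t) (by linarith) (by linarith)]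
  ring

lemma seg_cases {t : ℝ} (h0 : 0 ≤ t) (h7 : t ≤ 7) :
    (0 ≤ t ∧ t ≤ 1) ∨ (1 ≤ t ∧ t ≤ 2) ∨ (2 ≤ t ∧ t ≤ 3) ∨ (3 ≤ t ∧ t ≤ 4) ∨ (4 ≤ t ∧ t ≤ 5) ∨
      (5 ≤ t ∧ t ≤ 6) ∨ (6 ≤ t ∧ t ≤ 7) := by
  rcases le_total t 1 with h | h
  · exact Or.inl ⟨h0, h⟩
  rcases le_total t 2 with h' | h'
  · exact Or.inr (Or.inl ⟨h, h'⟩)
  rcases le_total t 3 with h'' | h''
  · exact Or.inr (Or.inr (Or.inl ⟨h', h''⟩))
  rcases le_total t 4 with g | g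
  · exact Or.inr (Or.inr (Or.inr (Or.inl ⟨h'', g⟩)))
  rcases le_total t 5 with g' | g'
  · exact Or.inr (Or.inr (Or.inr (Or.inr (Or.inl ⟨g, g'⟩))))
  rcases le_total t 6 with g'' | g''
  · exact Or.inr (Or.inr (Or.inr (Or.inr (Or.inr (Or.inl ⟨g', g''⟩)))))
  · exact Or.inr (Or.inr (Or.inr (Or.inr (Or.inr (Or.inr ⟨g'', h7⟩)))))

noncomputable def f1 (t : ℝ) : ℝ := pl (1/2) 1 0 0 0 (1/2) (1/2) (1/2) t
noncomputable def f2 (t : ℝ) : ℝ := pl (1/2) 1 1 1 0 (1/2) (1/2) (1/2) t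
noncomputable def f3 (t : ℝ) : ℝ := pl 0 (1/2) (1/2) 1 0 0 0 0 t
noncomputable def f4 (t : ℝ) : ℝ := pl 0 (1/2) (1/2) 1 1 1 (1/2) 0 t
noncomputable def f5 (t : ℝ) : ℝ := pl 0 0 0 (1/2) (1/2) 1 (1/2) 0 t
noncomputable def f6 (t : ℝ) : ℝ := pl 0 (1/12) (2/12) (3/12) (4/12) (5/12) (6/12) 0 t

/-- The closed polygon, parametrised by `[0, 7]`. -/
noncomputable def g (t : ℝ) : Fin 6 → ℝ := ![f1 t, f2 t, f3 t, f4 t, f5 t, f6 t]

lemma g_continuous : Continuous g := by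
  unfold g
  refine continuous_pi fun i => ?_
  fin_cases i
  all_goals exact pl_continuous _ _ _ _ _ _ _ _

/-- The six coordinates in the seven linear pieces. -/
lemma g_cases {t : ℝ} (h0 : 0 ≤ t) (h7 : t ≤ 7) :
    (0 ≤ t ∧ t ≤ 1 ∧ f1 t = (1 + t) / 2 ∧ f2 t = (1 + t) / 2 ∧ f3 t = t / 2 ∧ f4 t = t / 2 ∧
      f5 t = 0 ∧ f6 t = t / 12) ∨
    (1 ≤ t ∧ t ≤ 2 ∧ f1 t = 2 - t ∧ f2 t = 1 ∧ f3 t = 1 / 2 ∧ f4 t = 1 / 2 ∧
      f5 t = 0 ∧ f6 t = t / 12) ∨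
    (2 ≤ t ∧ t ≤ 3 ∧ f1 t = 0 ∧ f2 t = 1 ∧ f3 t = (t - 1) / 2 ∧ f4 t = (t - 1) / 2 ∧
      f5 t = (t - 2) / 2 ∧ f6 t = t / 12) ∨
    (3 ≤ t ∧ t ≤ 4 ∧ f1 t = 0 ∧ f2 t = 4 - t ∧ f3 t = 4 - t ∧ f4 t = 1 ∧
      f5 t = 1 / 2 ∧ f6 t = t / 12) ∨
    (4 ≤ t ∧ t ≤ 5 ∧ f1 t = (t - 4) / 2 ∧ f2 t = (t - 4) / 2 ∧ f3 t = 0 ∧ f4 t = 1 ∧
      f5 t = (t - 3) / 2 ∧ f6 t = t / 12) ∨
    (5 ≤ t ∧ t ≤ 6 ∧ f1 t = 1 / 2 ∧ f2 t = 1 / 2 ∧ f3 t = 0 ∧ f4 t = (7 - t) / 2 ∧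
      f5 t = (7 - t) / 2 ∧ f6 t = t / 12) ∨
    (6 ≤ t ∧ t ≤ 7 ∧ f1 t = 1 / 2 ∧ f2 t = 1 / 2 ∧ f3 t = 0 ∧ f4 t = (7 - t) / 2 ∧
      f5 t = (7 - t) / 2 ∧ f6 t = (7 - t) / 2) := by
  rcases seg_cases h0 h7 with h | h | h | h | h | h | h
  · refine Or.inl ?_
    refine ⟨h.1, h.2, ?_, ?_, ?_, ?_, ?_, ?_⟩ <;>
      simp only [f1, f2, f3, f4, f5, f6, seg0 h.1 h.2] <;> ring
  · refine Or.inr (Or.inl ?_)
    refine ⟨h.1, h.2, ?_, ?_, ?_, ?_, ?_, ?_⟩ <;>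
      simp only [f1, f2, f3, f4, f5, f6, seg1 h.1 h.2] <;> ring
  · refine Or.inr (Or.inr (Or.inl ?_))
    refine ⟨h.1, h.2, ?_, ?_, ?_, ?_, ?_, ?_⟩ <;>
      simp only [f1, f2, f3, f4, f5, f6, seg2 h.1 h.2] <;> ring
  · refine Or.inr (Or.inr (Or.inr (Or.inl ?_)))
    refine ⟨h.1, h.2, ?_, ?_, ?_, ?_, ?_, ?_⟩ <;>
      simp only [f1, f2, f3, f4, f5, f6, seg3 h.1 h.2] <;> ring
  · refine Or.inr (Or.inr (Or.inr (Or.inr (Or.inl ?_))))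
    refine ⟨h.1, h.2, ?_, ?_, ?_, ?_, ?_, ?_⟩ <;>
      simp only [f1, f2, f3, f4, f5, f6, seg4 h.1 h.2] <;> ring
  · refine Or.inr (Or.inr (Or.inr (Or.inr (Or.inr (Or.inl ?_)))))
    refine ⟨h.1, h.2, ?_, ?_, ?_, ?_, ?_, ?_⟩ <;>
      simp only [f1, f2, f3, f4, f5, f6, seg5 h.1 h.2] <;> ring
  · refine Or.inr (Or.inr (Or.inr (Or.inr (Or.inr (Or.inr ?_)))))
    refine ⟨h.1, h.2, ?_, ?_, ?_, ?_, ?_, ?_⟩ <;>
      simp only [f1, f2, f3, f4, f5, f6, seg6 h.1 h.2] <;> ring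

lemma g0 (t : ℝ) : g t 0 = f1 t := rfl
lemma g1 (t : ℝ) : g t 1 = f2 t := rfl
lemma g2 (t : ℝ) : g t 2 = f3 t := rfl
lemma g3 (t : ℝ) : g t 3 = f4 t := rfl
lemma g4 (t : ℝ) : g t 4 = f5 t := rfl
lemma g5 (t : ℝ) : g t 5 = f6 t := rfl

lemma g_bounds {t : ℝ} (h0 : 0 ≤ t) (h7 : t ≤ 7) (i : Fin 6) : 0 ≤ g t i ∧ g t i ≤ 1 := by
  rcases g_cases h0 h7 with ⟨a, b, h1, h2, h3, h4, h5, h6⟩ | ⟨a, b, h1, h2, h3, h4, h5, h6⟩ |
    ⟨a, b, h1, h2, h3, h4, h5, h6⟩ | ⟨a, b, h1, h2, h3, h4, h5, h6⟩ |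
    ⟨a, b, h1, h2, h3, h4, h5, h6⟩ | ⟨a, b, h1, h2, h3, h4, h5, h6⟩ |
    ⟨a, b, h1, h2, h3, h4, h5, h6⟩ <;>
  fin_cases i <;>
  simp only [Fin.mk_one, Fin.zero_eta, Fin.reduceFinMk, g0, g1, g2, g3, g4, g5, h1, h2, h3, h4, h5, h6] <;>
  constructor <;> linarith

lemma g5_le {t : ℝ} (h0 : 0 ≤ t) (h7 : t ≤ 7) : g t 5 ≤ 1 / 2 := by
  rcases g_cases h0 h7 with ⟨a, b, h1, h2, h3, h4, h5, h6⟩ | ⟨a, b, h1, h2, h3, h4, h5, h6⟩ |
    ⟨a, b, h1, h2, h3, h4, h5, h6⟩ | ⟨a, b, h1, h2, h3, h4, h5, h6⟩ |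
    ⟨a, b, h1, h2, h3, h4, h5, h6⟩ | ⟨a, b, h1, h2, h3, h4, h5, h6⟩ |
    ⟨a, b, h1, h2, h3, h4, h5, h6⟩ <;>
  rw [g5, h6] <;> linarith

/-- For every pair of coordinates, one of the two differences is at most `1/2` on the curve. -/
lemma g_diff {t : ℝ} (h0 : 0 ≤ t) (h7 : t ≤ 7) :
    (f5 t - f1 t ≤ 1/2 ∧ f1 t - f2 t ≤ 1/2 ∧ f5 t - f2 t ≤ 1/2 ∧ f1 t - f3 t ≤ 1/2 ∧
      f1 t - f4 t ≤ 1/2 ∧ f2 t - f4 t ≤ 1/2 ∧ f3 t - f4 t ≤ 1/2 ∧ f3 t - f5 t ≤ 1/2 ∧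
      f3 t - f2 t ≤ 1/2 ∧ f5 t - f4 t ≤ 1/2) := by
  rcases g_cases h0 h7 with ⟨a, b, h1, h2, h3, h4, h5, h6⟩ | ⟨a, b, h1, h2, h3, h4, h5, h6⟩ |
    ⟨a, b, h1, h2, h3, h4, h5, h6⟩ | ⟨a, b, h1, h2, h3, h4, h5, h6⟩ |
    ⟨a, b, h1, h2, h3, h4, h5, h6⟩ | ⟨a, b, h1, h2, h3, h4, h5, h6⟩ |
    ⟨a, b, h1, h2, h3, h4, h5, h6⟩ <;>
  rw [h1, h2, h3, h4, h5] <;>
  refine ⟨?_, ?_, ?_, ?_, ?_, ?_, ?_, ?_, ?_, ?_⟩ <;> linarith

/-- The two sets of pairs with a large positive, resp. negative, coordinate difference are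
disjoint. -/
lemma no_both {s t : ℝ} (hs0 : 0 ≤ s) (hs7 : s ≤ 7) (ht0 : 0 ≤ t) (ht7 : t ≤ 7)
    (k l : Fin 6) (hk : 3 / 4 < g s k - g t k) (hl : 3 / 4 < g t l - g s l) : False := by
  have hsd := g_diff hs0 hs7
  have htd := g_diff ht0 ht7
  have bs := g_bounds hs0 hs7
  have bt := g_bounds ht0 ht7
  have hs5 := g5_le hs0 hs7
  have ht5 := g5_le ht0 ht7
  have bs0 := bs 0
  have bs1 := bs 1
  have bs2 := bs 2
  have bs3 := bs 3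
  have bs4 := bs 4
  have bs5 := bs 5
  have bt0 := bt 0
  have bt1 := bt 1
  have bt2 := bt 2
  have bt3 := bt 3
  have bt4 := bt 4
  have bt5 := bt 5
  rw [g0] at bs0 bt0
  rw [g1] at bs1 bt1
  rw [g2] at bs2 bt2
  rw [g3] at bs3 bt3
  rw [g4] at bs4 bt4
  rw [g5] at bs5 bt5 hs5 ht5
  obtain ⟨a1, a2, a3, a4, a5, a6, a7, a8, a9, a10⟩ := hsd
  obtain ⟨b1, b2, b3, b4, b5, b6, b7, b8, b9, b10⟩ := htd
  fin_cases k <;> fin_cases l <;>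
  simp only [Fin.mk_one, Fin.zero_eta, Fin.reduceFinMk, g0, g1, g2, g3, g4, g5] at hk hl <;>
  linarith

/-- Points with a coordinate larger than `3/4` lie on the arc over `(0, 6)`, where the last
coordinate is `t / 12`. -/
lemma arc_of_large {t : ℝ} (h0 : 0 ≤ t) (h7 : t ≤ 7) (k : Fin 6) (hk : 3 / 4 < g t k) :
    0 < t ∧ t < 6 ∧ g t 5 = t / 12 := by
  rcases g_cases h0 h7 with ⟨a, b, h1, h2, h3, h4, h5, h6⟩ | ⟨a, b, h1, h2, h3, h4, h5, h6⟩ |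
    ⟨a, b, h1, h2, h3, h4, h5, h6⟩ | ⟨a, b, h1, h2, h3, h4, h5, h6⟩ |
    ⟨a, b, h1, h2, h3, h4, h5, h6⟩ | ⟨a, b, h1, h2, h3, h4, h5, h6⟩ |
    ⟨a, b, h1, h2, h3, h4, h5, h6⟩ <;>
  fin_cases k <;>
  simp only [Fin.mk_one, Fin.zero_eta, Fin.reduceFinMk, g0, g1, g2, g3, g4, g5, h1, h2, h3, h4,
    h5, h6, and_true] at hk ⊢ <;>
  first
  | (exfalso; linarith)
  | (refine ⟨?_, ?_⟩ <;> linarith)

lemma g_inj {s t : ℝ} (hs0 : 0 ≤ s) (hs7 : s < 7) (ht0 : 0 ≤ t) (ht7 : t < 7)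
    (h : g s = g t) : s = t := by
  have e1 : f1 s = f1 t := congrFun h 0
  have e2 : f2 s = f2 t := congrFun h 1
  have e3 : f3 s = f3 t := congrFun h 2
  have e4 : f4 s = f4 t := congrFun h 3
  have e5 : f5 s = f5 t := congrFun h 4
  have e6 : f6 s = f6 t := congrFun h 5
  rcases g_cases hs0 hs7.le with ⟨a, b, h1, h2, h3, h4, h5, h6⟩ | ⟨a, b, h1, h2, h3, h4, h5, h6⟩ |
    ⟨a, b, h1, h2, h3, h4, h5, h6⟩ | ⟨a, b, h1, h2, h3, h4, h5, h6⟩ |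
    ⟨a, b, h1, h2, h3, h4, h5, h6⟩ | ⟨a, b, h1, h2, h3, h4, h5, h6⟩ |
    ⟨a, b, h1, h2, h3, h4, h5, h6⟩ <;>
  rcases g_cases ht0 ht7.le with ⟨a', b', g1, g2, g3, g4, g5, g6⟩ |
    ⟨a', b', g1, g2, g3, g4, g5, g6⟩ | ⟨a', b', g1, g2, g3, g4, g5, g6⟩ |
    ⟨a', b', g1, g2, g3, g4, g5, g6⟩ | ⟨a', b', g1, g2, g3, g4, g5, g6⟩ |
    ⟨a', b', g1, g2, g3, g4, g5, g6⟩ | ⟨a', b', g1, g2, g3, g4, g5, g6⟩ <;>
  rw [h1, g1] at e1 <;> rw [h2, g2] at e2 <;> rw [h3, g3] at e3 <;> rw [h4, g4] at e4 <;>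
  rw [h5, g5] at e5 <;> rw [h6, g6] at e6 <;>
  linarith

end Pool.Agent.TH544.SpanCurve
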