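import Mathlib
import Pool.Agent.TH544.SpanCurve

set_option autoImplicit false

namespace Pool.Agent.TH544.SpanCurve

open Set

lemma g_zero_eq : g 0 = g 7 := by
  have a := g_cases (t := 0) le_rfl (by norm_num)
  have b := g_cases (t := 7) (by norm_num) le_rfl
  funext i
  rcases a with ⟨a, a', h1, h2, h3, h4, h5, h6⟩ | a | a | a | a | a | a
  · rcases b with b | b | b | b | b | b | ⟨b, b', k1, k2, k3, k4, k5, k6⟩
    · linarith [b.2.1]
    · linarith [b.2.1]
    · linarith [b.2.1]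
    · linarith [b.2.1]
    · linarith [b.2.1]
    · linarith [b.2.1]
    · fin_cases i <;> simp only [Fin.mk_one, Fin.zero_eta, Fin.reduceFinMk, g0, g1, g2, g3, g4, g5,
        h1, h2, h3, h4, h5, h6, k1, k2, k3, k4, k5, k6] <;> norm_num
  · linarith [a.1]
  · linarith [a.1]
  · linarith [a.1]
  · linarith [a.1]
  · linarith [a.1]
  · linarith [a.1]

instance fact7 : Fact ((0 : ℝ) < 7) := ⟨by norm_num⟩

/-- The parametrisation of the curve by the circle. -/
noncomputable def G : AddCircle (7 : ℝ) → (Fin 6 → ℝ) := AddCircle.liftIco 7 0 g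

lemma G_continuous : Continuous G :=
  AddCircle.liftIco_zero_continuous g_zero_eq g_continuous.continuousOn

lemma G_coe {t : ℝ} (h0 : 0 ≤ t) (h7 : t < 7) : G (t : AddCircle (7 : ℝ)) = g t :=
  AddCircle.liftIco_zero_coe_apply ⟨h0, h7⟩

lemma exists_rep (x : AddCircle (7 : ℝ)) : ∃ t : ℝ, 0 ≤ t ∧ t < 7 ∧ (t : AddCircle (7 : ℝ)) = x := by
  have h := AddCircle.coe_image_Ico_eq (7 : ℝ) 0
  have : x ∈ ((↑) : ℝ → AddCircle (7 : ℝ)) '' Ico 0 (0 + 7) := by rw [h]; trivial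
  obtain ⟨t, ht, rfl⟩ := this
  exact ⟨t, ht.1, by simpa using ht.2, rfl⟩

lemma G_injective : Function.Injective G := by
  intro x y h
  obtain ⟨s, hs0, hs7, rfl⟩ := exists_rep x
  obtain ⟨t, ht0, ht7, rfl⟩ := exists_rep y
  rw [G_coe hs0 hs7, G_coe ht0 ht7] at h
  rw [g_inj hs0 hs7 ht0 ht7 h]

/-- The curve. -/
def C : Set (Fin 6 → ℝ) := range G

lemma mem_C {q : Fin 6 → ℝ} : q ∈ C ↔ ∃ t : ℝ, 0 ≤ t ∧ t ≤ 7 ∧ q = g t := by
  constructor
  · rintro ⟨x, rfl⟩
    obtain ⟨s, hs0, hs7, rfl⟩ := exists_rep x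
    exact ⟨s, hs0, hs7.le, G_coe hs0 hs7⟩
  · rintro ⟨t, h0, h7, rfl⟩
    rcases h7.lt_or_eq with h | h
    · exact ⟨(t : AddCircle (7 : ℝ)), G_coe h0 h⟩
    · refine ⟨((0 : ℝ) : AddCircle (7 : ℝ)), ?_⟩
      rw [G_coe le_rfl (by norm_num), h, g_zero_eq]

/-- The circle group is the unit sphere of `ℂ`. -/
noncomputable def circleHomeo : Circle ≃ₜ ↥(Metric.sphere (0 : ℂ) 1) where
  toFun z := ⟨(z : ℂ), by
    rw [mem_sphere_zero_iff_norm]
    exact Circle.norm_coe z⟩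
  invFun z := ⟨z.1, z.2⟩
  left_inv z := by ext; rfl
  right_inv z := by ext; rfl
  continuous_toFun := by
    refine Continuous.subtype_mk ?_ _
    exact continuous_subtype_val
  continuous_invFun := by
    refine Continuous.subtype_mk ?_ _
    exact continuous_subtype_val

lemma C_homeo : Nonempty (↥C ≃ₜ ↥(Metric.sphere (0 : ℂ) 1)) := by
  have hemb : Topology.IsClosedEmbedding G := G_continuous.isClosedEmbedding G_injective
  have e1 : AddCircle (7 : ℝ) ≃ₜ ↥(range G) := hemb.isEmbedding.toHomeomorph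
  have e2 : AddCircle (7 : ℝ) ≃ₜ Circle := AddCircle.homeomorphCircle (by norm_num)
  exact ⟨(e1.symm.trans e2).trans circleHomeo⟩

end Pool.Agent.TH544.SpanCurve
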