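import Mathlib
import Pool.Agent.TH544.SpanCurve2

set_option autoImplicit false

namespace Pool.Agent.TH544.SpanCurve

open Set

lemma g_lip (s t : ℝ) (i : Fin 6) : |g s i - g t i| ≤ 8 * |s - t| := by
  have h0 := abs_le.1 (tent_lip' 0 s t)
  have h1 := abs_le.1 (tent_lip' 1 s t)
  have h2 := abs_le.1 (tent_lip' 2 s t)
  have h3 := abs_le.1 (tent_lip' 3 s t)
  have h4 := abs_le.1 (tent_lip' 4 s t)
  have h5 := abs_le.1 (tent_lip' 5 s t)
  have h6 := abs_le.1 (tent_lip' 6 s t)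
  have h7 := abs_le.1 (tent_lip' 7 s t)
  have hd : 0 ≤ |s - t| := abs_nonneg _
  fin_cases i <;>
  simp only [Fin.mk_one, Fin.zero_eta, Fin.reduceFinMk, g0, g1, g2, g3, g4, g5, f1, f2, f3, f4, f5,
    f6, pl] <;>
  rw [abs_le] <;> constructor <;> linarith [h0.1, h0.2, h1.1, h1.2, h2.1, h2.2, h3.1, h3.2, h4.1,
    h4.2, h5.1, h5.2, h6.1, h6.2, h7.1, h7.2]

/-- Points of the arc on which some coordinate is large. -/
def D : Set (Fin 6 → ℝ) := {q | ∃ t : ℝ, 0 < t ∧ t < 6 ∧ q = g t ∧ q 5 = t / 12}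

lemma mem_D_of_large {q : Fin 6 → ℝ} (hq : q ∈ C) (k : Fin 6) (hk : 3 / 4 < q k) : q ∈ D := by
  obtain ⟨t, h0, h7, rfl⟩ := mem_C.1 hq
  obtain ⟨a, b, c⟩ := arc_of_large h0 h7 k hk
  exact ⟨t, a, b, rfl, c⟩

lemma C_nonneg {q : Fin 6 → ℝ} (hq : q ∈ C) (k : Fin 6) : 0 ≤ q k := by
  obtain ⟨t, h0, h7, rfl⟩ := mem_C.1 hq
  exact (g_bounds h0 h7 k).1

lemma C_le_one {q : Fin 6 → ℝ} (hq : q ∈ C) (k : Fin 6) : q k ≤ 1 := by
  obtain ⟨t, h0, h7, rfl⟩ := mem_C.1 hq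
  exact (g_bounds h0 h7 k).2

lemma dist_lt_of_D {p q : Fin 6 → ℝ} (hp : p ∈ D) (hq : q ∈ D) (h : |p 5 - q 5| ≤ 1 / 200) :
    dist p q ≤ 3 / 4 := by
  obtain ⟨s, -, -, rfl, hs⟩ := hp
  obtain ⟨t, -, -, rfl, ht⟩ := hq
  rw [hs, ht] at h
  have h' : |s - t| ≤ 12 / 200 := by
    rw [abs_le] at h ⊢
    constructor <;> linarith [h.1, h.2]
  refine (dist_pi_le_iff (by norm_num)).2 fun i => ?_
  rw [Real.dist_eq]
  have := g_lip s t i
  linarith

/-- The linear-order argument on the arc. -/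
lemma no_arc (Z : Set ((Fin 6 → ℝ) × (Fin 6 → ℝ))) (hne : Z.Nonempty)
    (hD1 : Prod.fst '' Z ⊆ D) (hD2 : Prod.snd '' Z ⊆ D)
    (hpr : Prod.fst '' Z = Prod.snd '' Z) (hd : ∀ p ∈ Z, 3 / 4 < dist p.1 p.2)
    (hlt : ∀ p ∈ Z, p.1 5 < p.2 5) : False := by
  set K : Set ℝ := (fun q : Fin 6 → ℝ => q 5) '' (Prod.snd '' Z) with hK
  have hKne : K.Nonempty := by
    obtain ⟨p, hp⟩ := hne
    exact ⟨_, p.2, ⟨p, hp, rfl⟩, rfl⟩
  have hbdd : BddBelow K := by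
    refine ⟨0, ?_⟩
    rintro _ ⟨q, hq, rfl⟩
    obtain ⟨t, h0, -, -, h⟩ := hD2 hq
    simp only
    rw [h]; positivity
  obtain ⟨x, hxK, hx⟩ := exists_lt_of_csInf_lt hKne (show sInf K < sInf K + 1 / 200 by linarith)
  obtain ⟨q, ⟨p, hp, rfl⟩, rfl⟩ := hxK
  have h1 : sInf K ≤ p.1 5 := by
    refine csInf_le hbdd ?_
    refine ⟨p.1, ?_, rfl⟩
    rw [← hpr]
    exact ⟨p, hp, rfl⟩
  have h2 := hlt p hp
  have h3 := hd p hp
  have h4 := dist_lt_of_D (hD1 ⟨p, hp, rfl⟩) (hD2 ⟨p, hp, rfl⟩) (by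
    simp only at hx
    rw [abs_le]
    constructor <;> linarith)
  linarith

lemma no_arc' (Z : Set ((Fin 6 → ℝ) × (Fin 6 → ℝ))) (hZ : IsConnected Z)
    (hD1 : Prod.fst '' Z ⊆ D) (hD2 : Prod.snd '' Z ⊆ D)
    (hpr : Prod.fst '' Z = Prod.snd '' Z) (hd : ∀ p ∈ Z, 3 / 4 < dist p.1 p.2) : False := by
  have hor : ∀ p ∈ Z, p.1 5 < p.2 5 ∨ p.2 5 < p.1 5 := by
    intro p hp
    rcases lt_trichotomy (p.1 5) (p.2 5) with h | h | h
    · exact Or.inl h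
    · exfalso
      have h3 := hd p hp
      have h4 := dist_lt_of_D (hD1 ⟨p, hp, rfl⟩) (hD2 ⟨p, hp, rfl⟩) (by rw [h]; norm_num)
      linarith
    · exact Or.inr h
  have key := (isPreconnected_iff_subset_of_disjoint.1 hZ.isPreconnected)
    {p | p.1 5 < p.2 5} {p | p.2 5 < p.1 5}
    (isOpen_lt (by fun_prop) (by fun_prop)) (isOpen_lt (by fun_prop) (by fun_prop)) hor
    (by
      ext p
      simp only [mem_inter_iff, mem_ofPred_eq, mem_empty_iff_false, iff_false, not_and]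
      intro _ h1 h2
      exact absurd h1 (not_lt.2 h2.le))
  rcases key with h | h
  · exact no_arc Z hZ.nonempty hD1 hD2 hpr hd (fun p hp => h hp)
  · -- swap
    have e1 : Prod.fst '' (Prod.swap '' Z) = Prod.snd '' Z := by
      rw [← image_comp]; rfl
    have e2 : Prod.snd '' (Prod.swap '' Z) = Prod.fst '' Z := by
      rw [← image_comp]; rfl
    refine no_arc (Prod.swap '' Z) (hZ.nonempty.image _) (by rw [e1]; exact hD2)
      (by rw [e2]; exact hD1) (by rw [e1, e2, hpr]) ?_ ?_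
    · rintro _ ⟨p, hp, rfl⟩
      rw [Prod.fst_swap, Prod.snd_swap, dist_comm]
      exact hd p hp
    · rintro _ ⟨p, hp, rfl⟩
      exact h hp

/-- No connected set of pairs with equal projections keeps distance more than `3/4`. -/
lemma no_adm (Z : Set ((Fin 6 → ℝ) × (Fin 6 → ℝ))) (hZC : Z ⊆ C ×ˢ C) (hZ : IsConnected Z)
    (hpr : Prod.fst '' Z = Prod.snd '' Z) (hd : ∀ p ∈ Z, 3 / 4 < dist p.1 p.2) : False := by
  have hop : ∀ k : Fin 6, IsOpen {p : (Fin 6 → ℝ) × (Fin 6 → ℝ) | 3 / 4 < p.1 k - p.2 k} :=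
    fun k => isOpen_lt continuous_const (by fun_prop)
  have hop' : ∀ k : Fin 6, IsOpen {p : (Fin 6 → ℝ) × (Fin 6 → ℝ) | 3 / 4 < p.2 k - p.1 k} :=
    fun k => isOpen_lt continuous_const (by fun_prop)
  have key := (isPreconnected_iff_subset_of_disjoint.1 hZ.isPreconnected)
    (⋃ k, {p | 3 / 4 < p.1 k - p.2 k}) (⋃ k, {p | 3 / 4 < p.2 k - p.1 k})
    (isOpen_iUnion hop) (isOpen_iUnion hop')
    (by
      intro p hp
      by_contra hcon
      have : dist p.1 p.2 ≤ 3 / 4 := by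
        refine (dist_pi_le_iff (by norm_num)).2 fun i => ?_
        rw [Real.dist_eq, abs_le]
        by_contra h
        apply hcon
        rcases lt_or_ge (3 / 4) (p.1 i - p.2 i) with h1 | h1
        · exact Or.inl (mem_iUnion.2 ⟨i, h1⟩)
        · rcases lt_or_ge (3 / 4) (p.2 i - p.1 i) with h2 | h2
          · exact Or.inr (mem_iUnion.2 ⟨i, h2⟩)
          · exact absurd ⟨by linarith, h1⟩ h
      linarith [hd p hp])
    (by
      ext p
      simp only [mem_inter_iff, mem_iUnion, mem_ofPred_eq, mem_empty_iff_false, iff_false]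
      rintro ⟨hp, ⟨k, hk⟩, ⟨l, hl⟩⟩
      obtain ⟨h1, h2⟩ := hZC hp
      obtain ⟨s, hs0, hs7, hs⟩ := mem_C.1 h1
      obtain ⟨t, ht0, ht7, ht⟩ := mem_C.1 h2
      rw [hs, ht] at hk hl
      exact no_both hs0 hs7 ht0 ht7 k l hk hl)
  rcases key with h | h
  · have hD1 : Prod.fst '' Z ⊆ D := by
      rintro _ ⟨p, hp, rfl⟩
      obtain ⟨k, hk⟩ := mem_iUnion.1 (h hp)
      simp only [mem_ofPred_eq] at hk
      refine mem_D_of_large (hZC hp).1 k ?_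
      linarith [C_nonneg (hZC hp).2 k]
    exact no_arc' Z hZ hD1 (hpr ▸ hD1) hpr hd
  · have hD2 : Prod.snd '' Z ⊆ D := by
      rintro _ ⟨p, hp, rfl⟩
      obtain ⟨k, hk⟩ := mem_iUnion.1 (h hp)
      simp only [mem_ofPred_eq] at hk
      refine mem_D_of_large (hZC hp).2 k ?_
      linarith [C_nonneg (hZC hp).1 k]
    exact no_arc' Z hZ (hpr ▸ hD2) hD2 hpr hd

end Pool.Agent.TH544.SpanCurve
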