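import Mathlib
import Pool.Agent.TH544.SpanCurve3

set_option autoImplicit false

namespace Pool.Agent.TH544.SpanCurve

open Set

/-- The image of a rectangle of parameters. -/
def rect (a b c d : ℝ) : Set ((Fin 6 → ℝ) × (Fin 6 → ℝ)) :=
  (fun u : ℝ × ℝ => (g u.1, g u.2)) '' (Icc a b ×ˢ Icc c d)

lemma rect_connected {a b c d : ℝ} (h1 : a ≤ b) (h2 : c ≤ d) : IsConnected (rect a b c d) := by
  refine IsConnected.image ?_ _ ?_
  · exact (isConnected_Icc h1).prod (isConnected_Icc h2)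
  · have := g_continuous
    exact Continuous.continuousOn (by fun_prop)

lemma mem_rect {a b c d s t : ℝ} (h1 : a ≤ s) (h2 : s ≤ b) (h3 : c ≤ t) (h4 : t ≤ d) :
    (g s, g t) ∈ rect a b c d := ⟨(s, t), ⟨⟨h1, h2⟩, ⟨h3, h4⟩⟩, rfl⟩

/-- The connected set of pairs: the first point runs once around the curve. -/
def W : Set ((Fin 6 → ℝ) × (Fin 6 → ℝ)) :=
  ((((rect 2 4 1 1 ∪ rect 4 4 1 3) ∪ rect 4 7 3 3) ∪ rect 0 0 3 5) ∪ rect 0 2 5 5)

lemma W_connected : IsConnected W := by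
  have a1 : IsConnected (rect 2 4 1 1) := rect_connected (by norm_num) le_rfl
  have a2 : IsConnected (rect 4 4 1 3) := rect_connected le_rfl (by norm_num)
  have a3 : IsConnected (rect 4 7 3 3) := rect_connected (by norm_num) le_rfl
  have a4 : IsConnected (rect 0 0 3 5) := rect_connected le_rfl (by norm_num)
  have a5 : IsConnected (rect 0 2 5 5) := rect_connected (by norm_num) le_rfl
  have b2 : IsConnected (rect 2 4 1 1 ∪ rect 4 4 1 3) := by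
    refine IsConnected.union ⟨(g 4, g 1), ?_, ?_⟩ a1 a2
    · exact mem_rect (by norm_num) le_rfl le_rfl le_rfl
    · exact mem_rect le_rfl le_rfl le_rfl (by norm_num)
  have b3 : IsConnected ((rect 2 4 1 1 ∪ rect 4 4 1 3) ∪ rect 4 7 3 3) := by
    refine IsConnected.union ⟨(g 4, g 3), ?_, ?_⟩ b2 a3
    · exact Or.inr (mem_rect le_rfl le_rfl (by norm_num) le_rfl)
    · exact mem_rect le_rfl (by norm_num) le_rfl le_rfl
  have b4 : IsConnected (((rect 2 4 1 1 ∪ rect 4 4 1 3) ∪ rect 4 7 3 3) ∪ rect 0 0 3 5) := by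
    refine IsConnected.union ⟨(g 0, g 3), ?_, ?_⟩ b3 a4
    · rw [g_zero_eq]
      exact Or.inr (mem_rect (by norm_num) le_rfl le_rfl le_rfl)
    · exact mem_rect le_rfl le_rfl le_rfl (by norm_num)
  refine IsConnected.union ⟨(g 0, g 5), ?_, ?_⟩ b4 a5
  · exact Or.inr (mem_rect le_rfl le_rfl (by norm_num) le_rfl)
  · exact mem_rect le_rfl (by norm_num) le_rfl le_rfl

lemma W_sub : W ⊆ C ×ˢ C := by
  have key : ∀ a b c d : ℝ, 0 ≤ a → b ≤ 7 → 0 ≤ c → d ≤ 7 → rect a b c d ⊆ C ×ˢ C := by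
    rintro a b c d ha hb hc hd _ ⟨⟨s, t⟩, ⟨⟨h1, h2⟩, ⟨h3, h4⟩⟩, rfl⟩
    exact ⟨mem_C.2 ⟨s, ha.trans h1, h2.trans hb, rfl⟩, mem_C.2 ⟨t, hc.trans h3, h4.trans hd, rfl⟩⟩
  unfold W
  refine union_subset (union_subset (union_subset (union_subset ?_ ?_) ?_) ?_) ?_ <;>
  apply key <;> norm_num

lemma W_fst : C ⊆ Prod.fst '' W := by
  intro q hq
  obtain ⟨t, h0, h7, rfl⟩ := mem_C.1 hq
  rcases le_total t 2 with h | h
  · exact ⟨(g t, g 5), Or.inr (mem_rect h0 h le_rfl le_rfl), rfl⟩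
  rcases le_total t 4 with h' | h'
  · exact ⟨(g t, g 1), Or.inl (Or.inl (Or.inl (Or.inl (mem_rect h h' le_rfl le_rfl)))), rfl⟩
  · exact ⟨(g t, g 3), Or.inl (Or.inl (Or.inr (mem_rect h' h7 le_rfl le_rfl))), rfl⟩

lemma one_le_dist {s t : ℝ} (k : Fin 6) (h : 1 ≤ |g s k - g t k|) : 1 ≤ dist (g s) (g t) := by
  refine h.trans ?_
  rw [← Real.dist_eq]
  exact dist_le_pi_dist (g s) (g t) k

lemma one_le_dist1 {s t : ℝ} (k : Fin 6) (h1 : g s k = 0) (h2 : g t k = 1) :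
    1 ≤ dist (g s) (g t) := one_le_dist k (by rw [h1, h2]; norm_num)

lemma v1_1 : f1 1 = 1 := by simp only [f1]; rw [seg0 (by norm_num) (by norm_num)]; norm_num
lemma v1_24 {s : ℝ} (h1 : 2 ≤ s) (h2 : s ≤ 4) : f1 s = 0 := by
  rcases le_total s 3 with h | h
  · simp only [f1]; rw [seg2 h1 h]; ring
  · simp only [f1]; rw [seg3 h h2]; ring
lemma v2_4 : f2 4 = 0 := by simp only [f2]; rw [seg3 (by norm_num) (by norm_num)]; norm_num
lemma v2_13 {s : ℝ} (h1 : 1 ≤ s) (h2 : s ≤ 3) : f2 s = 1 := by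
  rcases le_total s 2 with h | h
  · simp only [f2]; rw [seg1 h1 h]; ring
  · simp only [f2]; rw [seg2 h h2]; ring
lemma v3_3 : f3 3 = 1 := by simp only [f3]; rw [seg2 (by norm_num) (by norm_num)]; norm_num
lemma v3_47 {s : ℝ} (h1 : 4 ≤ s) (h2 : s ≤ 7) : f3 s = 0 := by
  rcases le_total s 5 with h | h
  · simp only [f3]; rw [seg4 h1 h]; ring
  rcases le_total s 6 with h' | h'
  · simp only [f3]; rw [seg5 h h']; ring
  · simp only [f3]; rw [seg6 h' h2]; ring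
lemma v4_0 : f4 0 = 0 := by simp only [f4]; rw [seg0 (by norm_num) (by norm_num)]; norm_num
lemma v4_35 {s : ℝ} (h1 : 3 ≤ s) (h2 : s ≤ 5) : f4 s = 1 := by
  rcases le_total s 4 with h | h
  · simp only [f4]; rw [seg3 h1 h]; ring
  · simp only [f4]; rw [seg4 h h2]; ring
lemma v5_5 : f5 5 = 1 := by simp only [f5]; rw [seg4 (by norm_num) (by norm_num)]; norm_num
lemma v5_02 {s : ℝ} (h1 : 0 ≤ s) (h2 : s ≤ 2) : f5 s = 0 := by
  rcases le_total s 1 with h | h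
  · simp only [f5]; rw [seg0 h1 h]; ring
  · simp only [f5]; rw [seg1 h h2]; ring

lemma W_dist : ∀ p ∈ W, 1 ≤ dist p.1 p.2 := by
  intro p hp
  rcases hp with (((hp | hp) | hp) | hp) | hp <;>
  obtain ⟨⟨s, t⟩, ⟨⟨h1, h2⟩, ⟨h3, h4⟩⟩, rfl⟩ := hp <;> simp only at h1 h2 h3 h4 ⊢
  · have e : t = 1 := le_antisymm h4 h3
    subst e
    exact one_le_dist1 0 (v1_24 h1 h2) v1_1
  · have e : s = 4 := le_antisymm h2 h1
    subst e
    exact one_le_dist1 1 v2_4 (v2_13 h3 h4)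
  · have e : t = 3 := le_antisymm h4 h3
    subst e
    exact one_le_dist1 2 (v3_47 h1 h2) v3_3
  · have e : s = 0 := le_antisymm h2 h1
    subst e
    exact one_le_dist1 3 v4_0 (v4_35 h3 h4)
  · have e : t = 5 := le_antisymm h4 h3
    subst e
    exact one_le_dist1 4 (v5_02 h1 h2) v5_5

theorem span_lt_semispan :
    sSup {ε : ℝ | ∃ Z : Set ((Fin 6 → ℝ) × (Fin 6 → ℝ)), Z ⊆ C ×ˢ C ∧ IsConnected Z ∧
          Prod.fst '' Z = Prod.snd '' Z ∧ ∀ p ∈ Z, ε ≤ dist p.1 p.2}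
        < sSup {ε : ℝ | ∃ Z : Set ((Fin 6 → ℝ) × (Fin 6 → ℝ)), Z ⊆ C ×ˢ C ∧ IsConnected Z ∧
          Prod.snd '' Z ⊆ Prod.fst '' Z ∧ ∀ p ∈ Z, ε ≤ dist p.1 p.2} := by
  have hL : sSup {ε : ℝ | ∃ Z : Set ((Fin 6 → ℝ) × (Fin 6 → ℝ)), Z ⊆ C ×ˢ C ∧ IsConnected Z ∧
          Prod.fst '' Z = Prod.snd '' Z ∧ ∀ p ∈ Z, ε ≤ dist p.1 p.2} ≤ 3 / 4 := by
    refine Real.sSup_le ?_ (by norm_num)
    rintro ε ⟨Z, hZC, hZ, hpr, hd⟩
    by_contra hcon
    exact no_adm Z hZC hZ hpr (fun p hp => lt_of_lt_of_le (not_le.1 hcon) (hd p hp))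
  have hR : 1 ≤ sSup {ε : ℝ | ∃ Z : Set ((Fin 6 → ℝ) × (Fin 6 → ℝ)), Z ⊆ C ×ˢ C ∧ IsConnected Z ∧
          Prod.snd '' Z ⊆ Prod.fst '' Z ∧ ∀ p ∈ Z, ε ≤ dist p.1 p.2} := by
    refine le_csSup ?_ ?_
    · refine ⟨1, ?_⟩
      rintro ε ⟨Z, hZC, hZ, -, hd⟩
      obtain ⟨p, hp⟩ := hZ.nonempty
      refine (hd p hp).trans ?_
      refine (dist_pi_le_iff (by norm_num)).2 fun i => ?_
      have a1 := C_nonneg (hZC hp).1 i
      have a2 := C_nonneg (hZC hp).2 i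
      have b1 := C_le_one (hZC hp).1 i
      have b2 := C_le_one (hZC hp).2 i
      rw [Real.dist_eq, abs_le]
      constructor <;> linarith
    · refine ⟨W, W_sub, W_connected, ?_, W_dist⟩
      have : Prod.snd '' W ⊆ C := by
        rintro _ ⟨p, hp, rfl⟩
        exact (W_sub hp).2
      exact this.trans W_fst
  linarith

end Pool.Agent.TH544.SpanCurve
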